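import Mathlib

/-!
The lower bound (Burr–Erdős): every graph on `n` vertices without isolated vertices has Ramsey
number at least `n + log₂ n - 3 log₂ log₂ n - 5`.  Also the finite Ramsey theorem.
-/

set_option autoImplicit false

namespace Pool.Agent.U446.BE

open Finset
open scoped Classical

/-- The arrow relation: every graph on `N` vertices contains `G` or its complement does. -/
def Arr (N : ℕ) {n : ℕ} (G : SimpleGraph (Fin n)) : Prop :=
  ∀ R : SimpleGraph (Fin N), G.IsContained R ∨ G.IsContained Rᶜ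

/-! ### Ramsey's theorem -/

theorem ramsey_exists : ∀ s a b : ℕ, a + b = s → ∃ N : ℕ, ∀ (V : Type) (R : SimpleGraph V)
    (S : Finset V), N ≤ S.card →
    (∃ T ⊆ S, T.card = a ∧ R.IsClique T) ∨ (∃ T ⊆ S, T.card = b ∧ Rᶜ.IsClique T) := by
  intro s
  induction s with
  | zero =>
    intro a b hab
    have ha : a = 0 := by omega
    subst ha
    exact ⟨0, fun V R S _ => Or.inl ⟨∅, Finset.empty_subset _, rfl, by simp⟩⟩
  | succ s ih =>
    intro a b hab
    rcases Nat.eq_zero_or_pos a with rfl | ha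
    · exact ⟨0, fun V R S _ => Or.inl ⟨∅, Finset.empty_subset _, rfl, by simp⟩⟩
    rcases Nat.eq_zero_or_pos b with rfl | hb
    · exact ⟨0, fun V R S _ => Or.inr ⟨∅, Finset.empty_subset _, rfl, by simp⟩⟩
    obtain ⟨N1, h1⟩ := ih (a - 1) b (by omega)
    obtain ⟨N2, h2⟩ := ih a (b - 1) (by omega)
    refine ⟨N1 + N2 + 1, fun V R S hS => ?_⟩
    have hne : S.Nonempty := Finset.card_pos.1 (by omega)
    obtain ⟨v, hv⟩ := hne
    have hsub : S ⊆ insert v (S.filter (fun w => R.Adj v w) ∪ S.filter (fun w => Rᶜ.Adj v w)) := by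
      intro w hw
      rw [Finset.mem_insert, Finset.mem_union, Finset.mem_filter, Finset.mem_filter]
      by_cases hvw : w = v
      · exact Or.inl hvw
      · right
        by_cases hadj : R.Adj v w
        · exact Or.inl ⟨hw, hadj⟩
        · exact Or.inr ⟨hw, by rw [SimpleGraph.compl_adj]; exact ⟨fun h => hvw h.symm, hadj⟩⟩
    have hc := Finset.card_le_card hsub
    have hc2 := Finset.card_insert_le v
      (S.filter (fun w => R.Adj v w) ∪ S.filter (fun w => Rᶜ.Adj v w))
    have hc3 := Finset.card_union_le (S.filter (fun w => R.Adj v w)) (S.filter (fun w => Rᶜ.Adj v w))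
    rcases Nat.lt_or_ge (S.filter (fun w => R.Adj v w)).card N1 with hlt | hge
    · have hge2 : N2 ≤ (S.filter (fun w => Rᶜ.Adj v w)).card := by omega
      rcases h2 V R _ hge2 with ⟨T, hT, hTc, hTq⟩ | ⟨T, hT, hTc, hTq⟩
      · exact Or.inl ⟨T, hT.trans (Finset.filter_subset _ _), hTc, hTq⟩
      · right
        have hvT : v ∉ T := by
          intro h
          have := (Finset.mem_filter.1 (hT h)).2
          exact Rᶜ.loopless.irrefl v this
        refine ⟨insert v T, ?_, ?_, ?_⟩
        · intro w hw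
          rcases Finset.mem_insert.1 hw with rfl | hw
          · exact hv
          · exact (Finset.mem_filter.1 (hT hw)).1
        · rw [Finset.card_insert_of_notMem hvT]; omega
        · rw [Finset.coe_insert]
          exact hTq.insert (fun w hw _ => (Finset.mem_filter.1 (hT hw)).2)
    · rcases h1 V R _ hge with ⟨T, hT, hTc, hTq⟩ | ⟨T, hT, hTc, hTq⟩
      · left
        have hvT : v ∉ T := by
          intro h
          have := (Finset.mem_filter.1 (hT h)).2
          exact R.loopless.irrefl v this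
        refine ⟨insert v T, ?_, ?_, ?_⟩
        · intro w hw
          rcases Finset.mem_insert.1 hw with rfl | hw
          · exact hv
          · exact (Finset.mem_filter.1 (hT hw)).1
        · rw [Finset.card_insert_of_notMem hvT]; omega
        · rw [Finset.coe_insert]
          exact hTq.insert (fun w hw _ => (Finset.mem_filter.1 (hT hw)).2)
      · exact Or.inr ⟨T, hT.trans (Finset.filter_subset _ _), hTc, hTq⟩

theorem contained_of_clique {V : Type} {n : ℕ} (G : SimpleGraph (Fin n)) (R : SimpleGraph V)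
    (T : Finset V) (hT : T.card = n) (hR : R.IsClique T) : G.IsContained R := by
  have h1 : ¬ R.CliqueFree n := fun h => h T ⟨hR, hT⟩
  rw [SimpleGraph.not_cliqueFree_iff_top_isContained] at h1
  exact (SimpleGraph.IsContained.of_le le_top).trans h1

theorem arr_exists {n : ℕ} (G : SimpleGraph (Fin n)) : ∃ N, Arr N G := by
  obtain ⟨N, hN⟩ := ramsey_exists (n + n) n n rfl
  refine ⟨N, fun R => ?_⟩
  rcases hN (Fin N) R univ (by simp) with ⟨T, _, hT, hR⟩ | ⟨T, _, hT, hR⟩
  · exact Or.inl (contained_of_clique G R T hT hR)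
  · exact Or.inr (contained_of_clique G Rᶜ T hT hR)

/-! ### Monotonicity and the clique colouring -/

theorem arr_mono {n N N' : ℕ} {G : SimpleGraph (Fin n)} (h : Arr N G) (hN : N ≤ N') :
    Arr N' G := by
  intro R
  have key : ∀ H : SimpleGraph (Fin N'), (H.comap (Fin.castLE hN)).IsContained H := by
    intro H
    exact ⟨⟨⟨Fin.castLE hN, fun h => h⟩, Fin.castLE_injective hN⟩⟩
  rcases h (R.comap (Fin.castLE hN)) with h1 | h1
  · exact Or.inl (h1.trans (key R))
  · right
    have h2 : (R.comap (Fin.castLE hN))ᶜ ≤ (Rᶜ).comap (Fin.castLE hN) := by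
      intro u v huv
      rw [SimpleGraph.compl_adj] at huv
      rw [SimpleGraph.comap_adj, SimpleGraph.compl_adj]
      exact ⟨fun h => huv.1 (Fin.castLE_injective hN h), huv.2⟩
    exact (h1.trans (SimpleGraph.IsContained.of_le h2)).trans (key Rᶜ)

/-- Dominating sets. -/
def Dom {n : ℕ} (G : SimpleGraph (Fin n)) (D : Finset (Fin n)) : Prop :=
  ∀ v ∉ D, ∃ d ∈ D, G.Adj d v

theorem dom_mono {n : ℕ} {G : SimpleGraph (Fin n)} {D D' : Finset (Fin n)} (h : Dom G D)
    (hD : D ⊆ D') : Dom G D' := by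
  intro v hv
  obtain ⟨d, hd, hadj⟩ := h v (fun h => hv (hD h))
  exact ⟨d, hD hd, hadj⟩

theorem arr_dom {n N : ℕ} (hn : 1 ≤ n) {G : SimpleGraph (Fin n)} (hG : ∀ v, ∃ w, G.Adj v w)
    (h : Arr N G) : ∃ D : Finset (Fin n), Dom G D ∧ D.card ≤ N - (n - 1) := by
  let R : SimpleGraph (Fin N) :=
    { Adj := fun u v => u ≠ v ∧ (u : ℕ) < n - 1 ∧ (v : ℕ) < n - 1
      symm := ⟨fun u v h => ⟨h.1.symm, h.2.2, h.2.1⟩⟩
      loopless := ⟨fun u h => h.1 rfl⟩ }
  rcases h R with ⟨⟨f⟩⟩ | ⟨⟨f⟩⟩
  · exfalso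
    have hlt : ∀ v, (f v : ℕ) < n - 1 := by
      intro v
      obtain ⟨w, hw⟩ := hG v
      have := f.toHom.map_adj hw
      exact this.2.1
    have hinj : Function.Injective (fun v : Fin n => (⟨f v, hlt v⟩ : Fin (n - 1))) := by
      intro v w hvw
      have : (f v : ℕ) = f w := by
        have h3 := congrArg Fin.val hvw
        exact h3
      exact f.injective (Fin.ext this)
    have := Fintype.card_le_of_injective _ hinj
    simp at this
    omega
  · refine ⟨univ.filter (fun v => n - 1 ≤ (f v : ℕ)), ?_, ?_⟩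
    · intro v hv
      obtain ⟨w, hw⟩ := hG v
      refine ⟨w, ?_, hw.symm⟩
      rw [Finset.mem_filter] at hv ⊢
      refine ⟨Finset.mem_univ _, ?_⟩
      by_contra hlt
      have h2 := f.toHom.map_adj hw
      rw [SimpleGraph.compl_adj] at h2
      apply h2.2
      refine ⟨h2.1, ?_, ?_⟩
      · by_contra h3
        exact hv ⟨Finset.mem_univ _, not_lt.1 h3⟩
      · exact not_le.1 hlt
    · have h1 : ((univ.filter (fun v => n - 1 ≤ (f v : ℕ))).image
          (fun v => (f v : ℕ))) ⊆ Finset.Ico (n - 1) N := by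
        intro x hx
        rw [Finset.mem_image] at hx
        obtain ⟨v, hv, rfl⟩ := hx
        rw [Finset.mem_filter] at hv
        exact Finset.mem_Ico.2 ⟨hv.2, (f v).2⟩
      have h2 := Finset.card_le_card h1
      rw [Finset.card_image_of_injective, Nat.card_Ico] at h2
      · exact h2
      · intro v w hvw
        exact f.injective (Fin.ext hvw)

/-! ### Counting colourings -/

theorem count_aux (N : ℕ) (D : Finset (Fin N)) (β : Bool) (U : Finset (Fin N)) :
    Disjoint D U →
    (univ.filter (fun g : Sym2 (Fin N) → Bool => ∀ v ∈ U, ∃ d ∈ D, g s(d, v) = β)).card *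
      (2 ^ D.card) ^ U.card ≤
      (2 ^ D.card - 1) ^ U.card * Fintype.card (Sym2 (Fin N) → Bool) := by
  induction U using Finset.induction_on with
  | empty =>
    intro _
    simp
  | insert u U hu ih =>
    intro hDU
    rw [Finset.disjoint_insert_right] at hDU
    obtain ⟨huD, hDU⟩ := hDU
    have ih := ih hDU
    set A := univ.filter (fun g : Sym2 (Fin N) → Bool => ∀ v ∈ U, ∃ d ∈ D, g s(d, v) = β) with hA
    set A' := univ.filter
      (fun g : Sym2 (Fin N) → Bool => ∀ v ∈ insert u U, ∃ d ∈ D, g s(d, v) = β) with hA'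
    set B := A.filter (fun g => ∀ d ∈ D, g s(d, u) ≠ β) with hB
    have hsplit : A'.card + B.card = A.card := by
      have h1 : A' = A.filter (fun g => ¬ ∀ d ∈ D, g s(d, u) ≠ β) := by
        ext g
        rw [hA', hA, Finset.mem_filter, Finset.mem_filter, Finset.mem_filter]
        simp only [Finset.mem_univ, true_and, Finset.mem_insert, forall_eq_or_imp]
        push Not
        exact and_comm
      rw [h1, hB, add_comm]
      exact Finset.card_filter_add_card_filter_not _
    have hinj : A.card ≤ B.card * 2 ^ D.card := by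
      rw [← Finset.card_powerset, ← Finset.card_product]
      apply Finset.card_le_card_of_injOn
        (fun g => ((fun e => if (∃ d ∈ D, e = s(d, u)) then !β else g e),
          D.filter (fun d => g s(d, u) = β)))
      · intro g hg
        rw [Finset.mem_coe, Finset.mem_product]
        refine ⟨?_, ?_⟩
        · rw [hB, Finset.mem_filter, hA, Finset.mem_filter]
          refine ⟨⟨Finset.mem_univ _, ?_⟩, ?_⟩
          · intro v hv
            rw [Finset.mem_coe, hA, Finset.mem_filter] at hg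
            obtain ⟨d, hd, hgd⟩ := hg.2 v hv
            refine ⟨d, hd, ?_⟩
            dsimp only
            rw [if_neg]
            · exact hgd
            · rintro ⟨d', hd', he⟩
              rw [Sym2.eq_iff] at he
              rcases he with ⟨_, rfl⟩ | ⟨_, h2⟩
              · exact hu hv
              · subst h2
                exact (Finset.disjoint_left.1 hDU hd') hv
          · intro d hd
            dsimp only
            rw [if_pos ⟨d, hd, rfl⟩]
            simp
        · exact Finset.mem_powerset.2 (Finset.filter_subset _ _)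
      · intro g hg g' hg' heq
        rw [Prod.mk.injEq] at heq
        obtain ⟨h1, h2⟩ := heq
        funext e
        by_cases he : ∃ d ∈ D, e = s(d, u)
        · obtain ⟨d, hd, rfl⟩ := he
          have h3 : g s(d, u) = β ↔ g' s(d, u) = β := by
            have := Finset.ext_iff.1 h2 d
            simpa [hd] using this
          cases hx : g s(d, u) <;> cases hy : g' s(d, u) <;> cases β <;> simp_all
        · have := congrFun h1 e
          rwa [if_neg he, if_neg he] at this
    have hpos : 1 ≤ 2 ^ D.card := Nat.one_le_two_pow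
    rw [Finset.card_insert_of_notMem hu, pow_succ, pow_succ]
    have hstep : A'.card * 2 ^ D.card ≤ A.card * (2 ^ D.card - 1) := by
      rw [Nat.mul_sub, mul_one]
      have : A'.card * 2 ^ D.card + B.card * 2 ^ D.card = A.card * 2 ^ D.card := by
        rw [← add_mul, hsplit]
      omega
    calc A'.card * ((2 ^ D.card) ^ U.card * 2 ^ D.card)
        = (A'.card * 2 ^ D.card) * (2 ^ D.card) ^ U.card := by ring
      _ ≤ (A.card * (2 ^ D.card - 1)) * (2 ^ D.card) ^ U.card := Nat.mul_le_mul_right _ hstep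
      _ = (A.card * (2 ^ D.card) ^ U.card) * (2 ^ D.card - 1) := by ring
      _ ≤ ((2 ^ D.card - 1) ^ U.card * Fintype.card (Sym2 (Fin N) → Bool)) *
          (2 ^ D.card - 1) := Nat.mul_le_mul_right _ ih
      _ = _ := by ring

/-- Some colouring leaves many vertices undominated, in both colours, by every `k`-set. -/
theorem exists_colouring (N k s : ℕ) (hks : k + s ≤ N)
    (h : 2 * N ^ k * N ^ s * (2 ^ k - 1) ^ (N - k - s) < (2 ^ k) ^ (N - k - s)) :
    ∃ g : Sym2 (Fin N) → Bool, ∀ β : Bool, ∀ D : Finset (Fin N), D.card = k →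
      s < (univ.filter (fun v => v ∉ D ∧ ∀ d ∈ D, g s(d, v) ≠ β)).card := by
  by_contra hcon
  push Not at hcon
  set M := N - k - s with hM
  let J : Finset (Bool × Finset (Fin N) × Finset (Fin N)) :=
    (univ : Finset Bool) ×ˢ ((univ : Finset (Fin N)).powersetCard k ×ˢ
      (univ : Finset (Fin N)).powersetCard s)
  let E : Bool × Finset (Fin N) × Finset (Fin N) → Finset (Sym2 (Fin N) → Bool) := fun p =>
    if Disjoint p.2.1 p.2.2 then
      univ.filter (fun g => ∀ v ∈ univ \ (p.2.1 ∪ p.2.2), ∃ d ∈ p.2.1, g s(d, v) = p.1)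
    else ∅
  have hcover : (univ : Finset (Sym2 (Fin N) → Bool)) ⊆ J.biUnion E := by
    intro g _
    obtain ⟨β, D, hD, hle⟩ := hcon g
    set T := univ.filter (fun v => v ∉ D ∧ ∀ d ∈ D, g s(d, v) ≠ β) with hT
    have hTD : T ⊆ univ \ D := by
      intro v hv
      rw [hT, Finset.mem_filter] at hv
      exact Finset.mem_sdiff.2 ⟨Finset.mem_univ _, hv.2.1⟩
    have hcD : (univ \ D).card = N - k := by
      rw [Finset.card_sdiff_of_subset (Finset.subset_univ _), Finset.card_univ, Fintype.card_fin, hD]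
    obtain ⟨S, hTS, hSD, hS⟩ := Finset.exists_subsuperset_card_eq hTD hle (by rw [hcD]; omega)
    rw [Finset.mem_biUnion]
    refine ⟨(β, D, S), ?_, ?_⟩
    · simp only [J, Finset.mem_product, Finset.mem_univ, Finset.mem_powersetCard,
        Finset.subset_univ, true_and]
      exact ⟨hD, hS⟩
    · have hdis : Disjoint D S := by
        rw [Finset.disjoint_left]
        intro v hv hv2
        exact (Finset.mem_sdiff.1 (hSD hv2)).2 hv
      simp only [E]
      rw [if_pos hdis, Finset.mem_filter]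
      refine ⟨Finset.mem_univ _, ?_⟩
      intro v hv
      rw [Finset.mem_sdiff, Finset.mem_union, not_or] at hv
      by_contra hno
      push Not at hno
      apply hv.2.2
      apply hTS
      rw [hT, Finset.mem_filter]
      exact ⟨Finset.mem_univ _, hv.2.1, hno⟩
  have hE : ∀ p ∈ J, (E p).card * (2 ^ k) ^ M ≤
      (2 ^ k - 1) ^ M * Fintype.card (Sym2 (Fin N) → Bool) := by
    rintro ⟨β, D, S⟩ hp
    simp only [J, Finset.mem_product, Finset.mem_univ, Finset.mem_powersetCard,
      Finset.subset_univ, true_and] at hp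
    obtain ⟨hD, hS⟩ := hp
    simp only [E]
    by_cases hdis : Disjoint D S
    · rw [if_pos hdis]
      have h1 : Disjoint D (univ \ (D ∪ S)) := by
        rw [Finset.disjoint_left]
        intro v hv hv2
        exact (Finset.mem_sdiff.1 hv2).2 (Finset.mem_union_left _ hv)
      have h2 := count_aux N D β (univ \ (D ∪ S)) h1
      have h3 : (univ \ (D ∪ S)).card = M := by
        rw [Finset.card_sdiff_of_subset (Finset.subset_univ _), Finset.card_univ,
          Fintype.card_fin, Finset.card_union_of_disjoint hdis, hD, hS, hM]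
        omega
      rw [hD, h3] at h2
      exact h2
    · rw [if_neg hdis]
      simp
  have hJ : J.card ≤ 2 * N ^ k * N ^ s := by
    simp only [J]
    rw [Finset.card_product, Finset.card_product, Finset.card_powersetCard,
      Finset.card_powersetCard, Finset.card_univ, Finset.card_univ, Fintype.card_fin,
      Fintype.card_bool, mul_assoc]
    exact Nat.mul_le_mul_left _ (Nat.mul_le_mul (Nat.choose_le_pow N k) (Nat.choose_le_pow N s))
  have h1 : Fintype.card (Sym2 (Fin N) → Bool) ≤ ∑ p ∈ J, (E p).card := by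
    rw [← Finset.card_univ]
    exact (Finset.card_le_card hcover).trans Finset.card_biUnion_le
  have h2 : Fintype.card (Sym2 (Fin N) → Bool) * (2 ^ k) ^ M ≤
      J.card * ((2 ^ k - 1) ^ M * Fintype.card (Sym2 (Fin N) → Bool)) := by
    calc _ ≤ (∑ p ∈ J, (E p).card) * (2 ^ k) ^ M := Nat.mul_le_mul_right _ h1
      _ = ∑ p ∈ J, (E p).card * (2 ^ k) ^ M := by rw [Finset.sum_mul]
      _ ≤ ∑ p ∈ J, ((2 ^ k - 1) ^ M * Fintype.card (Sym2 (Fin N) → Bool)) :=
          Finset.sum_le_sum hE
      _ = _ := by rw [Finset.sum_const, smul_eq_mul]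
  have hpos : 0 < Fintype.card (Sym2 (Fin N) → Bool) := Fintype.card_pos
  have h3 : J.card * (2 ^ k - 1) ^ M < (2 ^ k) ^ M :=
    lt_of_le_of_lt (Nat.mul_le_mul_right _ hJ) h
  have h4 : J.card * ((2 ^ k - 1) ^ M * Fintype.card (Sym2 (Fin N) → Bool)) <
      Fintype.card (Sym2 (Fin N) → Bool) * (2 ^ k) ^ M := by
    calc J.card * ((2 ^ k - 1) ^ M * Fintype.card (Sym2 (Fin N) → Bool))
        = (J.card * (2 ^ k - 1) ^ M) * Fintype.card (Sym2 (Fin N) → Bool) := by ring
      _ < (2 ^ k) ^ M * Fintype.card (Sym2 (Fin N) → Bool) :=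
          Nat.mul_lt_mul_of_pos_right h3 hpos
      _ = _ := by ring
  omega

/-- A graph with a dominating `k`-set does not survive the colouring. -/
theorem not_arr (n k s : ℕ) (G : SimpleGraph (Fin n)) (D : Finset (Fin n)) (hD : Dom G D)
    (hDk : D.card = k) (hkn : k + s ≤ n + s)
    (h : 2 * (n + s) ^ k * (n + s) ^ s * (2 ^ k - 1) ^ ((n + s) - k - s) <
      (2 ^ k) ^ ((n + s) - k - s)) : ¬ Arr (n + s) G := by
  intro hArr
  obtain ⟨g, hg⟩ := exists_colouring (n + s) k s hkn h
  let R : SimpleGraph (Fin (n + s)) :=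
    { Adj := fun u v => u ≠ v ∧ g s(u, v) = true
      symm := ⟨fun u v h => ⟨h.1.symm, by rw [Sym2.eq_swap]; exact h.2⟩⟩
      loopless := ⟨fun u h => h.1 rfl⟩ }
  have key : ∀ (H : SimpleGraph (Fin (n + s))) (β : Bool),
      (∀ u v, H.Adj u v → g s(u, v) = β) → ¬ G.IsContained H := by
    rintro H β hH ⟨f⟩
    have hf : Function.Injective (f : Fin n → Fin (n + s)) := f.injective
    have h1 := hg β (D.image f) (by
      rw [Finset.card_image_of_injective _ hf, hDk])
    set T := univ.filter (fun v => v ∉ D.image f ∧ ∀ d ∈ D.image f, g s(d, v) ≠ β) with hT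
    have hdis : Disjoint T ((univ : Finset (Fin n)).image f) := by
      rw [Finset.disjoint_left]
      intro x hx hx2
      rw [Finset.mem_image] at hx2
      obtain ⟨v, _, rfl⟩ := hx2
      rw [hT, Finset.mem_filter] at hx
      obtain ⟨_, hxD, hx3⟩ := hx
      by_cases hv : v ∈ D
      · exact hxD (Finset.mem_image_of_mem _ hv)
      · obtain ⟨d, hd, hadj⟩ := hD v hv
        exact hx3 (f d) (Finset.mem_image_of_mem _ hd) (hH _ _ (f.toHom.map_adj hadj))
    have h2 := Finset.card_le_univ (T ∪ (univ : Finset (Fin n)).image f)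
    rw [Finset.card_union_of_disjoint hdis, Finset.card_image_of_injective _ hf,
      Finset.card_univ, Fintype.card_fin, Fintype.card_fin] at h2
    omega
  rcases hArr R with h1 | h1
  · exact key R true (fun u v huv => huv.2) h1
  · refine key Rᶜ false (fun u v huv => ?_) h1
    rw [SimpleGraph.compl_adj] at huv
    by_contra h3
    exact huv.2 ⟨huv.1, by simpa using h3⟩

theorem lower_core (n k s N : ℕ) (hn : 1 ≤ n) (hk : k ≤ n) (hks : k ≤ s + 1)
    (h : 2 * (n + s) ^ k * (n + s) ^ s * (2 ^ k - 1) ^ ((n + s) - k - s) <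
      (2 ^ k) ^ ((n + s) - k - s)) (G : SimpleGraph (Fin n)) (hG : ∀ v, ∃ w, G.Adj v w)
    (hArr : Arr N G) : n + k ≤ N := by
  by_contra hlt
  obtain ⟨D, hD, hDc⟩ := arr_dom hn hG hArr
  obtain ⟨D', hDD', _, hD'⟩ := Finset.exists_subsuperset_card_eq (Finset.subset_univ D)
    (show D.card ≤ k by omega) (by rw [Finset.card_univ, Fintype.card_fin]; exact hk)
  exact not_arr n k s G D' (dom_mono hD hDD') hD' (by omega) h (arr_mono hArr (by omega))

theorem arr_ge (n N : ℕ) (G : SimpleGraph (Fin n)) (hArr : Arr N G) : n ≤ N := by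
  rcases hArr ⊥ with ⟨⟨f⟩⟩ | ⟨⟨f⟩⟩
  · have := Fintype.card_le_of_injective _ f.injective
    simpa using this
  · have := Fintype.card_le_of_injective _ f.injective
    simpa using this

/-! ### Numerical part -/

theorem two_mul_pow_le (x : ℕ) : 2 * x ^ (x + 1) ≤ (x + 1) ^ (x + 1) := by
  have h : (x : ℤ) ^ (x + 1) + (x + 1 : ℕ) * (x : ℤ) ^ x ≤ ((x : ℤ) + 1) ^ (x + 1) := by
    have := add_pow (x : ℤ) 1 (x + 1)
    rw [this, Finset.sum_range_succ, Finset.sum_range_succ]
    simp only [one_pow, mul_one, Nat.choose_self, Nat.cast_one]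
    have h0 : (0 : ℤ) ≤ ∑ m ∈ range x, (x : ℤ) ^ m * ((x + 1).choose m : ℤ) :=
      Finset.sum_nonneg (fun m _ => by positivity)
    have h1 : (((x + 1).choose x : ℕ) : ℤ) = (x + 1 : ℕ) := by
      rw [Nat.choose_succ_self_right]
    rw [h1]
    nlinarith [h0]
  have h2 : (2 : ℤ) * (x : ℤ) ^ (x + 1) ≤ ((x : ℤ) + 1) ^ (x + 1) := by
    have h3 : (0 : ℤ) ≤ (x : ℤ) ^ x := by positivity
    push_cast at h
    have h4 : (x : ℤ) ^ (x + 1) = x * (x : ℤ) ^ x := by rw [pow_succ]; ring
    nlinarith [h, h3, h4]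
  exact_mod_cast h2

theorem pow_gap (x q M : ℕ) (hM : q * (x + 1) ≤ M) : 2 ^ q * x ^ M ≤ (x + 1) ^ M := by
  obtain ⟨r, rfl⟩ := Nat.exists_eq_add_of_le hM
  rw [pow_add, pow_add, mul_comm q (x + 1), pow_mul, pow_mul]
  calc 2 ^ q * ((x ^ (x + 1)) ^ q * x ^ r) = (2 * x ^ (x + 1)) ^ q * x ^ r := by
        rw [mul_pow]; ring
    _ ≤ ((x + 1) ^ (x + 1)) ^ q * (x + 1) ^ r :=
        Nat.mul_le_mul (Nat.pow_le_pow_left (two_mul_pow_le x) q)
          (Nat.pow_le_pow_left (Nat.le_succ x) r)

theorem numeric (n L l k : ℕ) (hL : 2 ^ L ≤ n) (hL2 : n < 2 ^ (L + 1)) (hl : L < 2 ^ (l + 1))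
    (hk : 1 ≤ k) (hkL : k + 3 * l + 4 = L) :
    2 * (n + L) ^ k * (n + L) ^ L * (2 ^ k - 1) ^ ((n + L) - k - L) <
      (2 ^ k) ^ ((n + L) - k - L) := by
  have hLn : L < 2 ^ L := Nat.lt_two_pow_self
  have hM0 : (n + L) - k - L = n - k := by omega
  rw [hM0]
  have hx : 2 ^ k - 1 + 1 = 2 ^ k := Nat.sub_add_cancel Nat.one_le_two_pow
  have hx1 : 1 ≤ 2 ^ k - 1 := by
    have : 2 ^ 1 ≤ 2 ^ k := Nat.pow_le_pow_right (by norm_num) hk
    omega
  -- M is at least 2^(L-1)
  have hLL : 2 * L ≤ 2 ^ L := by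
    have h1 : ∀ m : ℕ, 1 ≤ m → 2 * m ≤ 2 ^ m := by
      intro m hm
      induction m, hm using Nat.le_induction with
      | base => norm_num
      | succ m hm ih =>
        rw [pow_succ]
        omega
    exact h1 L (by omega)
  have hMge : 2 ^ (L - 1) ≤ n - k := by
    have h1 : 2 ^ L = 2 * 2 ^ (L - 1) := by
      rw [← pow_succ']
      congr 1
      omega
    omega
  have hq : 2 ^ (3 * l + 3) * (2 ^ k - 1 + 1) ≤ n - k := by
    rw [hx, ← pow_add]
    calc 2 ^ (3 * l + 3 + k) = 2 ^ (L - 1) := by congr 1; omega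
      _ ≤ _ := hMge
  have hgap := pow_gap (2 ^ k - 1) (2 ^ (3 * l + 3)) (n - k) hq
  rw [hx] at hgap
  refine lt_of_lt_of_le ?_ hgap
  have hpos : 0 < (2 ^ k - 1) ^ (n - k) := Nat.pow_pos (by omega)
  apply Nat.mul_lt_mul_of_pos_right _ hpos
  -- 2 (n+L)^(k+L) < 2^(2^(3l+3))
  have hNL : n + L ≤ 2 ^ (L + 2) := by
    have h1 : 2 ^ (L + 2) = 2 * 2 ^ (L + 1) := by rw [← pow_succ']
    have h2 : 2 ^ (L + 1) = 2 * 2 ^ L := by rw [← pow_succ']
    omega
  have h1 : 2 * (n + L) ^ k * (n + L) ^ L ≤ 2 ^ (1 + (L + 2) * (k + L)) := by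
    calc 2 * (n + L) ^ k * (n + L) ^ L = 2 * (n + L) ^ (k + L) := by rw [mul_assoc, ← pow_add]
      _ ≤ 2 * (2 ^ (L + 2)) ^ (k + L) := Nat.mul_le_mul_left _ (Nat.pow_le_pow_left hNL _)
      _ = 2 ^ (1 + (L + 2) * (k + L)) := by
        rw [← pow_mul, ← pow_succ']
        congr 1
        ring
  refine lt_of_le_of_lt h1 ?_
  apply Nat.pow_lt_pow_right (by norm_num)
  have h2 : 2 ^ (3 * l + 3) = (2 ^ (l + 1)) ^ 3 := by
    rw [← pow_mul]
    congr 1
    ring
  rw [h2]
  have h3 : (L + 1) ^ 3 ≤ (2 ^ (l + 1)) ^ 3 := Nat.pow_le_pow_left hl 3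
  have h4 : 1 + (L + 2) * (k + L) < (L + 1) ^ 3 := by
    have hkl : k + L ≤ 2 * L := by omega
    have hL5 : 5 ≤ L := by omega
    calc 1 + (L + 2) * (k + L) ≤ 1 + (L + 2) * (2 * L) := by
          apply Nat.add_le_add_left; exact Nat.mul_le_mul_left _ hkl
      _ < (L + 1) ^ 3 := by
        have e1 : 1 + (L + 2) * (2 * L) + 1 = 2 * (L + 1) ^ 2 := by ring
        have e2 : 2 * (L + 1) ^ 2 ≤ (L + 1) * (L + 1) ^ 2 := Nat.mul_le_mul_right _ (by omega)
        have e3 : (L + 1) ^ 3 = (L + 1) * (L + 1) ^ 2 := by ring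
        omega
  exact lt_of_lt_of_le h4 h3

/-- The lower bound in integer form. -/
theorem lower_nat (n N : ℕ) (hn : 2 ≤ n) (G : SimpleGraph (Fin n)) (hG : ∀ v, ∃ w, G.Adj v w)
    (hArr : Arr N G) : n + Nat.log 2 n ≤ N + 3 * Nat.log 2 (Nat.log 2 n) + 4 := by
  set L := Nat.log 2 n with hL
  set l := Nat.log 2 L with hl
  have hn0 : n ≠ 0 := by omega
  by_cases hk : L ≤ 3 * l + 4
  · have := arr_ge n N G hArr
    omega
  · obtain ⟨k, hk1⟩ : ∃ k, k + 3 * l + 4 = L := ⟨L - (3 * l + 4), by omega⟩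
    have h1 : 2 ^ L ≤ n := Nat.pow_log_le_self 2 hn0
    have h2 : n < 2 ^ (L + 1) := Nat.lt_pow_succ_log_self (by norm_num) n
    have h3 : L < 2 ^ (l + 1) := Nat.lt_pow_succ_log_self (by norm_num) L
    have h4 := numeric n L l k h1 h2 h3 (by omega) hk1
    have hLn : L < 2 ^ L := Nat.lt_two_pow_self
    have := lower_core n k L N (by omega) (by omega) (by omega) h4 G hG hArr
    omega

end Pool.Agent.U446.BE
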