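import Mathlib

/-!
The greedy two-colour argument: in every graph `R` on enough vertices, `R` or its complement
contains the star forest with `k` stars having `b 0, …, b (k-1)` leaves.
-/

set_option autoImplicit false

namespace Pool.Agent.U446.BE

open Finset
open scoped Classical

variable {V : Type*}

/-- symmetric kernel: `2` on edges, `1` on the diagonal, `0` otherwise. -/
noncomputable def K (H : SimpleGraph V) (c v : V) : ℕ :=
  if H.Adj c v then 2 else if c = v then 1 else 0

theorem K_symm (H : SimpleGraph V) (c v : V) : K H c v = K H v c := by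
  unfold K
  simp only [H.adj_comm c v, eq_comm (a := c) (b := v)]

theorem K_compl (R : SimpleGraph V) (c v : V) : K R c v + K Rᶜ c v = 2 := by
  unfold K
  by_cases h : c = v
  · subst h; simp
  · by_cases h2 : R.Adj c v <;> simp [h, h2, SimpleGraph.compl_adj]

theorem sum_K_le (H : SimpleGraph V) (c : V) (W : Finset V) :
    ∑ v ∈ W, K H c v ≤ 2 * (W.filter (fun v => H.Adj c v)).card + 1 := by
  have h1 : ∑ v ∈ W, K H c v ≤
      ∑ v ∈ W, ((if H.Adj c v then 2 else 0) + (if c = v then 1 else 0)) := by
    apply Finset.sum_le_sum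
    intro v _
    unfold K
    split_ifs <;> omega
  have h2 : ∑ v ∈ W, ((if H.Adj c v then 2 else 0) + (if c = v then 1 else 0)) =
      2 * (W.filter (fun v => H.Adj c v)).card + (if c ∈ W then 1 else 0) := by
    rw [Finset.sum_add_distrib, Finset.sum_ite_eq, ← Finset.sum_filter, Finset.sum_const,
      smul_eq_mul, mul_comm]
  have h3 : (if c ∈ W then 1 else 0) ≤ 1 := by split_ifs <;> omega
  omega

/-- Duality: on a nonempty set `P` of vertices one of the two colours is good. -/
theorem good_or (R : SimpleGraph V) (P : Finset V) (hP : P.Nonempty) :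
    (∀ W ⊆ P, ∃ c ∈ P, W.card ≤ ∑ v ∈ W, K R c v) ∨
    (∀ W ⊆ P, ∃ c ∈ P, W.card ≤ ∑ v ∈ W, K Rᶜ c v) := by
  by_contra hcon
  rw [not_or] at hcon
  obtain ⟨h0, h1⟩ := hcon
  push Not at h0 h1
  obtain ⟨W0, hW0, h0⟩ := h0
  obtain ⟨W1, hW1, h1⟩ := h1
  obtain ⟨p, hp⟩ := hP
  have hn0 : W0.Nonempty := by
    rw [Finset.nonempty_iff_ne_empty]
    rintro rfl
    have := h0 p hp
    simp at this
  have hn1 : W1.Nonempty := by
    rw [Finset.nonempty_iff_ne_empty]
    rintro rfl
    have := h1 p hp
    simp at this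
  have a1 : ∑ c ∈ W0, ∑ v ∈ W1, K Rᶜ c v < ∑ c ∈ W0, W1.card :=
    Finset.sum_lt_sum_of_nonempty hn0 (fun c hc => h1 c (hW0 hc))
  have a2 : ∑ v ∈ W1, ∑ c ∈ W0, K R v c < ∑ v ∈ W1, W0.card :=
    Finset.sum_lt_sum_of_nonempty hn1 (fun c hc => h0 c (hW1 hc))
  rw [Finset.sum_comm] at a2
  have a3 : ∑ c ∈ W0, ∑ v ∈ W1, K Rᶜ c v + ∑ c ∈ W0, ∑ v ∈ W1, K R v c =
      ∑ c ∈ W0, ∑ v ∈ W1, 2 := by
    rw [← Finset.sum_add_distrib]
    apply Finset.sum_congr rfl
    intro c _
    rw [← Finset.sum_add_distrib]
    apply Finset.sum_congr rfl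
    intro v _
    rw [K_symm R v c, add_comm]
    exact K_compl R c v
  simp only [Finset.sum_const, smul_eq_mul] at a1 a2 a3
  have : W1.card * W0.card = W0.card * W1.card := mul_comm _ _
  have : W0.card * (W1.card * 2) = 2 * (W0.card * W1.card) := by ring
  omega

variable [Fintype V]

/-- State of one colour: `i` centres chosen (their set is `X`), Hall's condition with surplus
`k - i`. -/
def St (H : SimpleGraph V) (b : ℕ → ℕ) (k i : ℕ) (X : Finset V) : Prop :=
  ∃ c : ℕ → V, (range i).image c = X ∧ X.card = i ∧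
    ∀ I ⊆ range i, I.Nonempty →
      (∑ m ∈ I, b m) + (k - i) ≤ (univ.filter (fun v => v ∉ X ∧ ∃ m ∈ I, H.Adj (c m) v)).card

theorem St_zero [Nonempty V] (H : SimpleGraph V) (b : ℕ → ℕ) (k : ℕ) : St H b k 0 ∅ := by
  refine ⟨fun _ => Classical.arbitrary V, by simp, by simp, ?_⟩
  intro I hI hne
  simp at hI
  exact absurd hne (by simp [hI])

/-- Hall's theorem: allocation of leaves. -/
theorem hall_alloc (H : SimpleGraph V) (b : ℕ → ℕ) (i : ℕ) (c : ℕ → V) (X : Finset V)
    (h : ∀ I ⊆ range i, I.Nonempty →
      (∑ m ∈ I, b m) ≤ (univ.filter (fun v => v ∉ X ∧ ∃ m ∈ I, H.Adj (c m) v)).card) :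
    ∃ L : (Σ m : Fin i, Fin (b m)) → V, Function.Injective L ∧
      ∀ p, L p ∉ X ∧ H.Adj (c p.1) (L p) := by
  have key := (Finset.all_card_le_biUnion_card_iff_exists_injective
    (fun p : (Σ m : Fin i, Fin (b m)) =>
      univ.filter (fun v => v ∉ X ∧ H.Adj (c p.1) v))).1 ?_
  · obtain ⟨f, hf, hf2⟩ := key
    refine ⟨f, hf, fun p => ?_⟩
    have := hf2 p
    simpa using this
  · intro s
    rcases s.eq_empty_or_nonempty with rfl | hs
    · simp
    set I : Finset ℕ := s.image (fun p => (p.1 : ℕ)) with hI
    have hIr : I ⊆ range i := by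
      intro m hm
      rw [hI, Finset.mem_image] at hm
      obtain ⟨p, _, rfl⟩ := hm
      exact Finset.mem_range.2 p.1.2
    have hIne : I.Nonempty := hs.image _
    have h1 := h I hIr hIne
    have h2 : s.card ≤ ∑ m ∈ I, b m := by
      rw [Finset.card_eq_sum_card_image (fun p : (Σ m : Fin i, Fin (b m)) => (p.1 : ℕ)) s]
      apply Finset.sum_le_sum
      intro m hm
      have hmi : m < i := Finset.mem_range.1 (hIr hm)
      have : (s.filter (fun p => (p.1 : ℕ) = m)) ⊆
          (univ : Finset (Fin (b m))).image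
            (fun x => (⟨⟨m, hmi⟩, x⟩ : (Σ m : Fin i, Fin (b m)))) := by
        intro p hp
        rw [Finset.mem_filter] at hp
        obtain ⟨⟨q, hq⟩, x⟩ := p
        have : q = m := hp.2
        subst this
        exact Finset.mem_image.2 ⟨x, Finset.mem_univ _, rfl⟩
      calc _ ≤ _ := Finset.card_le_card this
        _ ≤ _ := Finset.card_image_le
        _ = b m := by simp
    have h3 : (univ.filter (fun v => v ∉ X ∧ ∃ m ∈ I, H.Adj (c m) v)) ⊆
        s.biUnion (fun p => univ.filter (fun v => v ∉ X ∧ H.Adj (c p.1) v)) := by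
      intro v hv
      rw [Finset.mem_filter] at hv
      obtain ⟨_, hvX, m, hm, hadj⟩ := hv
      rw [hI, Finset.mem_image] at hm
      obtain ⟨p, hp, rfl⟩ := hm
      rw [Finset.mem_biUnion]
      exact ⟨p, hp, by simp [hvX, hadj]⟩
    have h4 := Finset.card_le_card h3
    omega

/-- One greedy step. -/
theorem step (H : SimpleGraph V) (b : ℕ → ℕ) (k i : ℕ) (hi : i < k) (X Y : Finset V)
    (hN : Y.card + i + (∑ m ∈ range i, b m) + 2 * (b i + (k - i)) ≤ Fintype.card V)
    (hS : St H b k i X)
    (hgood : ∀ W ⊆ univ \ (X ∪ Y), ∃ c ∈ univ \ (X ∪ Y), W.card ≤ ∑ v ∈ W, K H c v) :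
    ∃ X', St H b k (i + 1) X' := by
  obtain ⟨c, hcX, hXc, hI⟩ := hS
  obtain ⟨L, hL, hL2⟩ := hall_alloc H b i c X (fun I hIr hne => by
    have := hI I hIr hne
    omega)
  set A : Finset V := univ.image L with hA
  have hAcard : A.card = ∑ m ∈ range i, b m := by
    rw [hA, Finset.card_image_of_injective _ hL, Finset.card_univ, Fintype.card_sigma,
      Finset.sum_range (fun m => b m)]
    simp
  set P : Finset V := univ \ (X ∪ Y) with hP
  have hPcard : Fintype.card V ≤ P.card + i + Y.card := by
    have h1 : (univ : Finset V).card ≤ P.card + (X ∪ Y).card := by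
      have : (univ : Finset V) ⊆ P ∪ (X ∪ Y) := by
        intro v _
        by_cases hv : v ∈ X ∪ Y
        · exact Finset.mem_union_right _ hv
        · exact Finset.mem_union_left _ (Finset.mem_sdiff.2 ⟨Finset.mem_univ _, hv⟩)
      exact (Finset.card_le_card this).trans (Finset.card_union_le _ _)
    have h2 : (X ∪ Y).card ≤ X.card + Y.card := Finset.card_union_le _ _
    rw [Finset.card_univ] at h1
    omega
  obtain ⟨v0, hv0, hv0c⟩ := hgood (P \ A) Finset.sdiff_subset
  have hv0X : v0 ∉ X := by
    rw [hP] at hv0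
    simp only [Finset.mem_sdiff, Finset.mem_univ, Finset.mem_union, true_and, not_or] at hv0
    exact hv0.1
  set W : Finset V := P \ A with hW
  have hWcard : P.card ≤ W.card + A.card := by
    have := Finset.le_card_sdiff A P
    rw [← hW] at this
    omega
  have hv0c2 := hv0c.trans (sum_K_le H v0 W)
  have hF : b i + (k - i) ≤ (W.filter (fun v => H.Adj v0 v)).card := by omega
  refine ⟨insert v0 X, Function.update c i v0, ?_, ?_, ?_⟩
  · rw [Finset.range_add_one, Finset.image_insert, Function.update_self]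
    congr 1
    rw [← hcX]
    apply Finset.image_congr
    intro m hm
    have : m ≠ i := by
      have := Finset.mem_range.1 (Finset.mem_coe.1 hm)
      omega
    exact Function.update_of_ne this _ _
  · rw [Finset.card_insert_of_notMem hv0X, hXc]
  · intro I hIr hne
    by_cases hiI : i ∈ I
    · -- the new centre takes part
      set I' := I.erase i with hI'
      have hI'r : I' ⊆ range i := by
        intro m hm
        rw [hI', Finset.mem_erase] at hm
        have := Finset.mem_range.1 (hIr hm.2)
        exact Finset.mem_range.2 (by omega)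
      set B : Finset V :=
        (univ.filter (fun p : (Σ m : Fin i, Fin (b m)) => (p.1 : ℕ) ∈ I')).image L with hB
      have hBcard : B.card = ∑ m ∈ I', b m := by
        rw [hB, Finset.card_image_of_injective _ hL]
        have : (univ.filter (fun p : (Σ m : Fin i, Fin (b m)) => (p.1 : ℕ) ∈ I')) =
            (univ.filter (fun m : Fin i => (m : ℕ) ∈ I')).sigma (fun m => univ) := by
          ext p
          simp
        rw [this, Finset.card_sigma]
        simp only [Finset.card_univ, Fintype.card_fin]
        rw [Finset.sum_filter]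
        have h2 : ∑ m ∈ I', b m = ∑ m ∈ range i, if m ∈ I' then b m else 0 := by
          rw [← Finset.sum_filter]
          apply Finset.sum_congr _ (fun _ _ => rfl)
          ext m
          simp only [Finset.mem_filter]
          exact ⟨fun h => ⟨hI'r h, h⟩, fun h => h.2⟩
        rw [h2, Finset.sum_range (fun m => if m ∈ I' then b m else 0)]
      have hBA : B ⊆ A := by
        rw [hB, hA]
        exact Finset.image_subset_image (Finset.subset_univ _)
      have hdis : Disjoint B (W.filter (fun v => H.Adj v0 v)) := by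
        rw [Finset.disjoint_left]
        intro v hvB hvW
        rw [Finset.mem_filter, hW, Finset.mem_sdiff] at hvW
        exact hvW.1.2 (hBA hvB)
      have hsub : (B ∪ (W.filter (fun v => H.Adj v0 v))).erase v0 ⊆
          (univ.filter (fun v => v ∉ insert v0 X ∧
            ∃ m ∈ I, H.Adj (Function.update c i v0 m) v)) := by
        intro v hv
        rw [Finset.mem_erase, Finset.mem_union] at hv
        obtain ⟨hne0, hv⟩ := hv
        rw [Finset.mem_filter, Finset.mem_insert, not_or]
        rcases hv with hv | hv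
        · rw [hB, Finset.mem_image] at hv
          obtain ⟨p, hp, rfl⟩ := hv
          rw [Finset.mem_filter] at hp
          refine ⟨Finset.mem_univ _, ⟨hne0, (hL2 p).1⟩, (p.1 : ℕ), ?_, ?_⟩
          · exact (Finset.mem_erase.1 hp.2).2
          · rw [Function.update_of_ne (by have := p.1.2; omega)]
            exact (hL2 p).2
        · rw [Finset.mem_filter, hW, Finset.mem_sdiff, hP] at hv
          obtain ⟨⟨hvP, _⟩, hadj⟩ := hv
          simp only [Finset.mem_sdiff, Finset.mem_univ, Finset.mem_union, true_and, not_or] at hvP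
          refine ⟨Finset.mem_univ _, ⟨hne0, hvP.1⟩, i, hiI, ?_⟩
          rw [Function.update_self]
          exact hadj
      have h1 := Finset.card_le_card hsub
      have h2 : (B ∪ (W.filter (fun v => H.Adj v0 v))).card - 1 ≤
          ((B ∪ (W.filter (fun v => H.Adj v0 v))).erase v0).card := Finset.pred_card_le_card_erase
      rw [Finset.card_union_of_disjoint hdis] at h2
      have h3 : ∑ m ∈ I, b m = b i + ∑ m ∈ I', b m := by
        rw [hI', Finset.add_sum_erase _ _ hiI]
      omega
    · have hIr' : I ⊆ range i := by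
        intro m hm
        have h1 := Finset.mem_range.1 (hIr hm)
        have h2 : m ≠ i := fun h => hiI (h ▸ hm)
        exact Finset.mem_range.2 (by omega)
      have h0 := hI I hIr' hne
      have hsub : (univ.filter (fun v => v ∉ X ∧ ∃ m ∈ I, H.Adj (c m) v)).erase v0 ⊆
          (univ.filter (fun v => v ∉ insert v0 X ∧
            ∃ m ∈ I, H.Adj (Function.update c i v0 m) v)) := by
        intro v hv
        rw [Finset.mem_erase, Finset.mem_filter] at hv
        obtain ⟨hne0, _, hvX, m, hm, hadj⟩ := hv
        rw [Finset.mem_filter, Finset.mem_insert, not_or]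
        refine ⟨Finset.mem_univ _, ⟨hne0, hvX⟩, m, hm, ?_⟩
        have : m ≠ i := fun h => hiI (h ▸ hm)
        rw [Function.update_of_ne this]
        exact hadj
      have h1 := Finset.card_le_card hsub
      have h2 := Finset.pred_card_le_card_erase (s := univ.filter
        (fun v => v ∉ X ∧ ∃ m ∈ I, H.Adj (c m) v)) (a := v0)
      omega

theorem St_card {H : SimpleGraph V} {b : ℕ → ℕ} {k i : ℕ} {X : Finset V} (h : St H b k i X) :
    X.card = i := by
  obtain ⟨_, _, h, _⟩ := h
  exact h

theorem process (R : SimpleGraph V) (b : ℕ → ℕ) (k : ℕ)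
    (hN : ∀ i < k, (k - 1) + i + (∑ m ∈ range i, b m) + 2 * (b i + (k - i)) ≤ Fintype.card V) :
    ∀ (fuel i j : ℕ) (X Y : Finset V), i ≤ k → j ≤ k → (k - i) + (k - j) = fuel →
      St R b k i X → St Rᶜ b k j Y → (∃ X', St R b k k X') ∨ (∃ Y', St Rᶜ b k k Y') := by
  intro fuel
  induction fuel with
  | zero =>
    intro i j X Y hi hj hf h1 h2
    have : i = k := by omega
    subst this
    exact Or.inl ⟨X, h1⟩
  | succ n ih =>
    intro i j X Y hi hj hf h1 h2
    rcases Nat.eq_or_lt_of_le hi with rfl | hi'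
    · exact Or.inl ⟨X, h1⟩
    rcases Nat.eq_or_lt_of_le hj with rfl | hj'
    · exact Or.inr ⟨Y, h2⟩
    have hXc := St_card h1
    have hYc := St_card h2
    have hPne : (univ \ (X ∪ Y) : Finset V).Nonempty := by
      rw [Finset.nonempty_iff_ne_empty]
      intro he
      rw [Finset.sdiff_eq_empty_iff_subset] at he
      have h3 := Finset.card_le_card he
      have h4 : (X ∪ Y).card ≤ X.card + Y.card := Finset.card_union_le _ _
      rw [Finset.card_univ] at h3
      have h5 := hN (k - 1) (by omega)
      omega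
    rcases good_or R _ hPne with hg | hg
    · obtain ⟨X', hX'⟩ := step R b k i hi' X Y (by have := hN i hi'; omega) h1 hg
      exact ih (i + 1) j X' Y (by omega) hj (by omega) hX' h2
    · obtain ⟨Y', hY'⟩ := step Rᶜ b k j hj' Y X (by have := hN j hj'; omega) h2
        (by rw [Finset.union_comm Y X]; exact hg)
      exact ih i (j + 1) X Y' hi (by omega) (by omega) h1 hY'

/-- The star forest with `k` stars, star `m` having `b m` leaves, is found in `H`. -/
def HasForest (H : SimpleGraph V) (b : ℕ → ℕ) (k : ℕ) : Prop :=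
  ∃ (c : Fin k → V) (L : (Σ m : Fin k, Fin (b m)) → V),
    Function.Injective c ∧ Function.Injective L ∧ (∀ m p, c m ≠ L p) ∧
    ∀ p, H.Adj (c p.1) (L p)

theorem St_final {H : SimpleGraph V} {b : ℕ → ℕ} {k : ℕ} {X : Finset V} (h : St H b k k X) :
    HasForest H b k := by
  obtain ⟨c, hcX, hXc, hI⟩ := h
  obtain ⟨L, hL, hL2⟩ := hall_alloc H b k c X (fun I hIr hne => by
    have := hI I hIr hne
    omega)
  refine ⟨fun m => c m, L, ?_, hL, ?_, fun p => (hL2 p).2⟩
  · have hinj : Set.InjOn c (range k : Finset ℕ) := by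
      rw [← Finset.card_image_iff, hcX, hXc, Finset.card_range]
    intro m m' h
    exact Fin.ext (hinj (by simp) (by simp) h)
  · intro m p h
    apply (hL2 p).1
    rw [← h, ← hcX]
    exact Finset.mem_image_of_mem _ (Finset.mem_range.2 m.2)

/-- Main combinatorial theorem. -/
theorem forest_or [Nonempty V] (R : SimpleGraph V) (b : ℕ → ℕ) (k : ℕ)
    (hN : ∀ i < k, (k - 1) + i + (∑ m ∈ range i, b m) + 2 * (b i + (k - i)) ≤ Fintype.card V) :
    HasForest R b k ∨ HasForest Rᶜ b k := by
  rcases process R b k hN _ 0 0 ∅ ∅ (Nat.zero_le _) (Nat.zero_le _) rfl (St_zero R b k)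
    (St_zero Rᶜ b k) with ⟨X, hX⟩ | ⟨X, hX⟩
  · exact Or.inl (St_final hX)
  · exact Or.inr (St_final hX)

end Pool.Agent.U446.BE
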