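import Pool.Agent.U446.BE.Step

/-!
The upper bound: for every `n ≥ 2` there is a graph on `n` vertices without isolated vertices
whose Ramsey number is at most `n + k + 3`, where `2 ^ (k - 1) ≤ n`.
-/

set_option autoImplicit false

namespace Pool.Agent.U446.BE

open Finset
open scoped Classical

/-- The star forest with `k` stars, star `m` having `b m` leaves. -/
def SF (b : ℕ → ℕ) (k : ℕ) : SimpleGraph (Fin k ⊕ (Σ m : Fin k, Fin (b m))) where
  Adj x y := (∃ p : (Σ m : Fin k, Fin (b m)), x = Sum.inl p.1 ∧ y = Sum.inr p) ∨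
    (∃ p : (Σ m : Fin k, Fin (b m)), y = Sum.inl p.1 ∧ x = Sum.inr p)
  symm := ⟨fun x y h => h.symm⟩
  loopless := ⟨by
    rintro x (⟨p, h1, h2⟩ | ⟨p, h1, h2⟩)
    · rw [h1] at h2; cases h2
    · rw [h1] at h2; cases h2⟩

theorem SF_contained {V : Type*} {H : SimpleGraph V} {b : ℕ → ℕ} {k : ℕ}
    (h : HasForest H b k) : (SF b k).IsContained H := by
  obtain ⟨c, L, hc, hL, hcL, hadj⟩ := h
  refine ⟨⟨⟨Sum.elim c L, ?_⟩, ?_⟩⟩
  · rintro x y (⟨p, rfl, rfl⟩ | ⟨p, rfl, rfl⟩)
    · exact hadj p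
    · exact (hadj p).symm
  · exact Function.Injective.sumElim hc hL hcL

theorem SF_noIsolated (b : ℕ → ℕ) (k : ℕ) (hb : ∀ m < k, 1 ≤ b m)
    (x : Fin k ⊕ (Σ m : Fin k, Fin (b m))) : ∃ y, (SF b k).Adj x y := by
  rcases x with m | p
  · exact ⟨Sum.inr ⟨m, ⟨0, hb m m.2⟩⟩, Or.inl ⟨⟨m, ⟨0, hb m m.2⟩⟩, rfl, rfl⟩⟩
  · exact ⟨Sum.inl p.1, Or.inr ⟨p, rfl, rfl⟩⟩

/-- The sizes of the stars. -/
def bb (n k : ℕ) (i : ℕ) : ℕ :=
  if i = 0 then n + 2 - 2 ^ (k - 1) - 2 * k else 2 ^ (k - 1 - i) + 1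

theorem sum_bb (n k : ℕ) (i : ℕ) (hi : i + 1 ≤ k) :
    ∑ m ∈ range (i + 1), bb n k m + 2 ^ (k - (i + 1)) = bb n k 0 + 2 ^ (k - 1) + i := by
  induction i with
  | zero => simp
  | succ i ih =>
    have h := ih (by omega)
    rw [Finset.sum_range_succ]
    have h1 : bb n k (i + 1) = 2 ^ (k - (i + 2)) + 1 := by
      unfold bb
      rw [if_neg (by omega)]
      congr 2
      omega
    have h2 : 2 ^ (k - (i + 1)) = 2 * 2 ^ (k - (i + 2)) := by
      rw [← pow_succ']
      congr 1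
      omega
    rw [show k - (i + 1 + 1) = k - (i + 2) from rfl]
    omega

theorem exists_forest (n : ℕ) (hn : 2 ≤ n) :
    ∃ G : SimpleGraph (Fin n), (∀ v, ∃ w, G.Adj v w) ∧ ∃ k : ℕ, 1 ≤ k ∧ 2 ^ (k - 1) ≤ n ∧
      ∀ R : SimpleGraph (Fin (n + k + 3)), G.IsContained R ∨ G.IsContained Rᶜ := by
  have hex : ∃ k, n ≤ 2 ^ k + 2 * k :=
    ⟨n, le_trans (by omega : n ≤ 2 * n) (Nat.le_add_left _ _)⟩
  set k := Nat.find hex with hk
  have hk1 : n ≤ 2 ^ k + 2 * k := Nat.find_spec hex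
  have hk0 : 1 ≤ k := by
    rcases Nat.eq_zero_or_pos k with h | h
    · rw [h] at hk1; simp at hk1; omega
    · exact h
  have hk2 : 2 ^ (k - 1) + 2 * (k - 1) < n := by
    have := Nat.find_min hex (m := k - 1) (by omega)
    omega
  have h2k : 2 ^ k = 2 * 2 ^ (k - 1) := by
    rw [← pow_succ']
    congr 1
    omega
  have hb0 : bb n k 0 + 2 ^ (k - 1) + 2 * k = n + 2 := by
    unfold bb
    rw [if_pos rfl]
    omega
  have hbpos : ∀ m < k, 1 ≤ bb n k m := by
    intro m hm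
    rcases Nat.eq_zero_or_pos m with rfl | h
    · omega
    · unfold bb
      rw [if_neg (by omega)]
      exact Nat.le_add_left 1 _
  have hsum : ∑ m ∈ range k, bb n k m + k = n := by
    have := sum_bb n k (k - 1) (by omega)
    rw [show k - 1 + 1 = k by omega, show k - k = 0 by omega] at this
    omega
  have hcard : Fintype.card (Fin k ⊕ (Σ m : Fin k, Fin (bb n k m))) = n := by
    rw [Fintype.card_sum, Fintype.card_sigma, Fintype.card_fin]
    simp only [Fintype.card_fin]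
    rw [← Finset.sum_range (fun m => bb n k m)]
    omega
  let e : Fin n ≃ (Fin k ⊕ (Σ m : Fin k, Fin (bb n k m))) :=
    (Fintype.equivFinOfCardEq hcard).symm
  refine ⟨(SF (bb n k) k).comap e, ?_, k, hk0, by omega, ?_⟩
  · intro v
    obtain ⟨y, hy⟩ := SF_noIsolated (bb n k) k hbpos (e v)
    refine ⟨e.symm y, ?_⟩
    rw [SimpleGraph.comap_adj, Equiv.apply_symm_apply]
    exact hy
  · intro R
    have hiso : ((SF (bb n k) k).comap e).IsContained (SF (bb n k) k) :=
      ⟨(SimpleGraph.Iso.comap e (SF (bb n k) k)).toCopy⟩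
    have hcond : ∀ i < k, (k - 1) + i + (∑ m ∈ range i, bb n k m) +
        2 * (bb n k i + (k - i)) ≤ Fintype.card (Fin (n + k + 3)) := by
      intro i hi
      rw [Fintype.card_fin]
      rcases Nat.eq_zero_or_pos i with rfl | hpos
      · simp only [Finset.range_zero, Finset.sum_empty]
        omega
      · obtain ⟨j, rfl⟩ : ∃ j, i = j + 1 := ⟨i - 1, by omega⟩
        have h1 := sum_bb n k j (by omega)
        have h3 : bb n k (j + 1) = 2 ^ (k - (j + 2)) + 1 := by
          unfold bb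
          rw [if_neg (by omega)]
          congr 2
          omega
        have h4 : 2 ^ (k - (j + 1)) = 2 * 2 ^ (k - (j + 2)) := by
          rw [← pow_succ']
          congr 1
          omega
        omega
    rcases forest_or R (bb n k) k hcond with h | h
    · exact Or.inl (hiso.trans (SF_contained h))
    · exact Or.inr (hiso.trans (SF_contained h))

end Pool.Agent.U446.BE
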